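import Mathlib
import Pool.Agent.X81.TruthTrees

/-!
# Acceptability has the letter-sharing property

Models: the worlds are the subsets of a two-element set, negation is evaluated at the complement
and implication with unions.  Every acceptable formula is true at `∅` in every such model
(`TruthTrees.acc_valid`); an implication without a common letter is not.
-/

set_option autoImplicit false

namespace Pool.Agent.Results.MP_d84959_lc.LetterSharing

open Pool.Agent.X81.TruthTrees

/-- The acceptable formulas: the least set `A` that contains every formula that has a truth-tree
(with the recursive rule for the implications in `A`) that satisfies parity. -/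
def A : Set Fm := Acc ParityAt'

/-- **`A` has the letter-sharing property**; also, a formula is in `A` exactly when it has a tree
with parity whose recursive steps use implications in `A`. -/
theorem result :
    (∀ φ ψ : Fm, Fm.imp φ ψ ∈ A → ∃ n, n ∈ letters φ ∧ n ∈ letters ψ) ∧
    (∀ φ, φ ∈ A ↔ ∃ t : TruthTree A φ, ∀ B ∈ t.branches, ParityAt' B) :=
  ⟨fun φ ψ h => letter_sharing (fun _ h => ParityAt'.weak h) φ ψ h, acc_iff ParityAt'⟩

end Pool.Agent.Results.MP_d84959_lc.LetterSharing
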